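import Pool.Agent.H828.MR.Main

set_option autoImplicit false

universe u

namespace Pool.Agent.Results.MP_e3b596_gt.KappaNormalGroups

open Cardinal Topology

/-- `G` is `κ`-normal, `κ = |G|`: every subset of cardinality `< κ` lies in a normal subgroup of
cardinality `< κ`. -/
def KappaNormal (G : Type u) [Group G] : Prop :=
  ∀ F : Set G, #F < #G → ∃ N : Subgroup G, N.Normal ∧ F ⊆ N ∧ #N < #G

/-- `A` is `κ`-large on both sides, `κ = |G|`: `G = F A = A F` for some `F` with `|F| < κ`. -/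
def TwoSidedLarge {G : Type u} [Group G] (A : Set G) : Prop :=
  ∃ F : Set G, #F < #G ∧ (∀ g : G, ∃ f ∈ F, ∃ a ∈ A, f * a = g) ∧
    ∀ g : G, ∃ f ∈ F, ∃ a ∈ A, a * f = g

/-- A topology is maximal: no isolated points, and every strictly finer (stronger) topology has an
isolated point. (`τ' < τ` in Mathlib means that `τ'` has strictly more open sets than `τ`.) -/
def MaximalTopology {X : Type u} (τ : TopologicalSpace X) : Prop :=
  (∀ x : X, ¬ IsOpen[τ] {x}) ∧ ∀ τ' : TopologicalSpace X, τ' < τ → ∃ x : X, IsOpen[τ'] {x}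

/-- Every `κ`-normal group `G`, abelian or not, of singular cardinality `κ` carries a topology that
is maximal, regular (even T3), left invariant and `κ`-bounded (on both sides). -/
theorem result {G : Type u} [Group G] (hinf : ℵ₀ ≤ #G) (hsing : (#G).ord.cof < #G)
    (hnorm : KappaNormal G) :
    ∃ τ : TopologicalSpace G,
      MaximalTopology τ ∧
      (@T3Space G τ ∧ ∀ x : G, ∀ U ∈ @nhds G τ x, ∃ V ∈ @nhds G τ x, IsClosed[τ] V ∧ V ⊆ U) ∧
      (∀ g : G, @Continuous G G τ τ (fun x => g * x)) ∧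
      ∀ U : Set G, U ∈ @nhds G τ 1 → TwoSidedLarge U := by
  have hn : ∀ F : Set (Additive G), #F < #(Additive G) →
      ∃ N : AddSubgroup (Additive G), N.Normal ∧ F ⊆ N ∧ #N < #(Additive G) := by
    intro F hF
    obtain ⟨N, h1, h2, h3⟩ := hnorm F hF
    refine ⟨Subgroup.toAddSubgroup N, ⟨fun n hn g => ?_⟩, h2, h3⟩
    exact h1.conj_mem n hn g
  obtain ⟨τ, h1, h2, h3, h4⟩ := Pool.Agent.H828.MR.main (G := Additive G) hinf hsing hn
  refine ⟨τ, h1, ⟨h2, fun x U hU => ?_⟩, h3, ?_⟩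
  · obtain ⟨V, hV1, hV2, hV3⟩ := @exists_mem_nhds_isClosed_subset G τ h2.toRegularSpace x U hU
    exact ⟨V, hV1, hV2, hV3⟩
  · intro U hU
    obtain ⟨F, hF, hF'⟩ : ∃ F : Set G, #F < #G ∧ ∀ g : G, ∃ f ∈ F, ∃ a ∈ U, f * a = g :=
      h4 U hU
    obtain ⟨N, hN1, hN2, hN3⟩ := hnorm F hF
    refine ⟨N, hN3, fun g => ?_, fun g => ?_⟩
    · obtain ⟨f, hf, a, ha, hfa⟩ := hF' g
      exact ⟨f, hN2 hf, a, ha, hfa⟩
    · obtain ⟨f, hf, a, ha, hfa⟩ := hF' g
      refine ⟨a⁻¹ * f * a⁻¹⁻¹, hN1.conj_mem _ (hN2 hf) a⁻¹, a, ha, ?_⟩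
      rw [← hfa]
      group

end Pool.Agent.Results.MP_e3b596_gt.KappaNormalGroups
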